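import Mathlib

/-! Section 3 of the project PK: convexity of the corrected quartic form. -/

set_option autoImplicit false

namespace Pool.Agent.Helper42.PK

open Finset

variable {Ω : Type*} [Fintype Ω] {p r : ℕ}

/-- mean over `Ω` -/
noncomputable def mean (f : Ω → ℝ) : ℝ := (∑ i, f i) / Fintype.card Ω

/-- average over the class of `i` (all classes have `card Ω / p` elements) -/
noncomputable def cmean (π : Ω → Fin p) (f : Ω → ℝ) (i : Ω) : ℝ :=
  (p : ℝ) * (∑ j with π j = π i, f j) / Fintype.card Ω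

/-- the operator `B` -/
noncomputable def opB (π : Fin r → Ω → Fin p) (τ T : ℝ) (y : Ω → ℝ) (i : Ω) : ℝ :=
  τ * mean y + T * ∑ c, (cmean (π c) y i - mean y)

/-- the quartic form -/
noncomputable def formP (π : Fin r → Ω → Fin p) (τ T : ℝ) (x : Ω → ℝ) : ℝ :=
  mean (fun i => x i ^ 4) + mean (fun i => x i ^ 2 * opB π τ T (fun j => x j ^ 2) i)

/-- the corrected form -/
noncomputable def formF (π : Fin r → Ω → Fin p) (τ T η : ℝ) (γ : ℝ → ℝ) (x : Ω → ℝ) : ℝ :=
  6 * η * mean (fun i => x i ^ 2) + formP π τ T x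
    + 2 * mean (fun i => x i ^ 2 * γ (opB π τ T (fun j => x j ^ 2) i))

/-- the convex quartic comparison form -/
noncomputable def formQ (π : Fin r → Ω → Fin p) (τ T : ℝ) (x : Ω → ℝ) : ℝ :=
  mean (fun i => x i ^ 4) + T * ∑ c, mean (fun i => cmean (π c) (fun j => x j ^ 2) i ^ 2)
    + τ * mean (fun i => x i ^ 2) ^ 2

/-! ### Elementary facts on means -/

theorem mean_add (f g : Ω → ℝ) : mean (fun i => f i + g i) = mean f + mean g := by
  simp only [mean, Finset.sum_add_distrib, add_div]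

theorem mean_sub (f g : Ω → ℝ) : mean (fun i => f i - g i) = mean f - mean g := by
  simp only [mean, Finset.sum_sub_distrib, sub_div]

theorem mean_smul (a : ℝ) (f : Ω → ℝ) : mean (fun i => a * f i) = a * mean f := by
  simp only [mean, ← Finset.mul_sum, mul_div_assoc]

theorem mean_mul_const (a : ℝ) (f : Ω → ℝ) : mean (fun i => f i * a) = mean f * a := by
  simp only [mean, ← Finset.sum_mul]; ring

theorem mean_mono {f g : Ω → ℝ} (h : ∀ i, f i ≤ g i) : mean f ≤ mean g :=
  div_le_div_of_nonneg_right (Finset.sum_le_sum fun i _ => h i) (Nat.cast_nonneg _)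

theorem mean_nonneg {f : Ω → ℝ} (h : ∀ i, 0 ≤ f i) : 0 ≤ mean f :=
  div_nonneg (Finset.sum_nonneg fun i _ => h i) (Nat.cast_nonneg _)

theorem mean_sum {ι : Type*} (s : Finset ι) (f : ι → Ω → ℝ) :
    mean (fun i => ∑ c ∈ s, f c i) = ∑ c ∈ s, mean (f c) := by
  unfold mean
  rw [Finset.sum_comm, Finset.sum_div]

theorem mean_sq_le [Nonempty Ω] (f : Ω → ℝ) : mean f ^ 2 ≤ mean (fun i => f i ^ 2) := by
  have hn : (0 : ℝ) < Fintype.card Ω := by exact_mod_cast Fintype.card_pos
  unfold mean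
  rw [div_pow, div_le_div_iff₀ (by positivity) hn]
  have h := sq_sum_le_card_mul_sum_sq (s := (univ : Finset Ω)) (f := f)
  rw [Finset.card_univ] at h
  have := mul_le_mul_of_nonneg_right h hn.le
  nlinarith [this]

theorem cmean_add (π : Ω → Fin p) (f g : Ω → ℝ) (i : Ω) :
    cmean π (fun j => f j + g j) i = cmean π f i + cmean π g i := by
  simp only [cmean, Finset.sum_add_distrib]; ring

theorem cmean_smul (π : Ω → Fin p) (a : ℝ) (f : Ω → ℝ) (i : Ω) :
    cmean π (fun j => a * f j) i = a * cmean π f i := by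
  simp only [cmean, ← Finset.mul_sum]; ring

theorem opB_add (π : Fin r → Ω → Fin p) (τ T : ℝ) (f g : Ω → ℝ) (i : Ω) :
    opB π τ T (fun j => f j + g j) i = opB π τ T f i + opB π τ T g i := by
  simp only [opB, cmean_add, mean_add]
  have : ∀ c, cmean (π c) f i + cmean (π c) g i - (mean f + mean g)
      = (cmean (π c) f i - mean f) + (cmean (π c) g i - mean g) := fun c => by ring
  simp only [this, Finset.sum_add_distrib]
  ring

theorem opB_smul (π : Fin r → Ω → Fin p) (τ T a : ℝ) (f : Ω → ℝ) (i : Ω) :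
    opB π τ T (fun j => a * f j) i = a * opB π τ T f i := by
  simp only [opB, cmean_smul, mean_smul]
  have : ∀ c, a * cmean (π c) f i - a * mean f = a * (cmean (π c) f i - mean f) := fun c => by ring
  simp only [this, ← Finset.mul_sum]
  ring

/-- `opB` as a linear map -/
noncomputable def opBl (π : Fin r → Ω → Fin p) (τ T : ℝ) : (Ω → ℝ) →ₗ[ℝ] (Ω → ℝ) where
  toFun y := opB π τ T y
  map_add' f g := by
    funext i
    exact opB_add π τ T f g i
  map_smul' a f := by
    funext i
    exact opB_smul π τ T a f i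

theorem mean_mul_cmean_comm (π : Ω → Fin p) (u w : Ω → ℝ) :
    mean (fun i => u i * cmean π w i) = mean (fun i => cmean π u i * w i) := by
  unfold mean cmean
  congr 1
  have e1 : ∀ i, u i * ((p : ℝ) * (∑ j with π j = π i, w j) / Fintype.card Ω)
      = ∑ j, (if π j = π i then (p : ℝ) * (u i * w j) / Fintype.card Ω else 0) := by
    intro i
    rw [← Finset.sum_filter, ← Finset.sum_div, ← Finset.mul_sum, ← Finset.mul_sum]
    ring
  have e2 : ∀ i, ((p : ℝ) * (∑ j with π j = π i, u j) / Fintype.card Ω) * w i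
      = ∑ j, (if π j = π i then (p : ℝ) * (u j * w i) / Fintype.card Ω else 0) := by
    intro i
    rw [← Finset.sum_filter, ← Finset.sum_div, ← Finset.mul_sum, ← Finset.sum_mul]
    ring
  simp only [e1, e2]
  rw [Finset.sum_comm]
  refine Finset.sum_congr rfl fun i _ => Finset.sum_congr rfl fun j _ => ?_
  by_cases h : π i = π j
  · rw [if_pos h, if_pos h.symm]
  · rw [if_neg h, if_neg (fun h' => h h'.symm)]

theorem mean_mul_opB_comm (π : Fin r → Ω → Fin p) (τ T : ℝ) (u w : Ω → ℝ) :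
    mean (fun i => u i * opB π τ T w i) = mean (fun i => opB π τ T u i * w i) := by
  have e1 : ∀ i, u i * opB π τ T w i
      = τ * mean w * u i + T * ∑ c, (u i * cmean (π c) w i - mean w * u i) := by
    intro i
    unfold opB
    rw [mul_add, Finset.mul_sum, Finset.mul_sum, Finset.mul_sum]
    congr 1
    · ring
    · refine Finset.sum_congr rfl fun c _ => by ring
  have e2 : ∀ i, opB π τ T u i * w i
      = τ * mean u * w i + T * ∑ c, (cmean (π c) u i * w i - mean u * w i) := by
    intro i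
    unfold opB
    rw [add_mul, Finset.mul_sum, Finset.mul_sum, Finset.sum_mul]
    congr 1
    refine Finset.sum_congr rfl fun c _ => by ring
  simp only [e1, e2, mean_add, mean_smul, mean_sum, mean_sub, mean_mul_cmean_comm]
  congr 1
  · ring
  · congr 1
    refine Finset.sum_congr rfl fun c _ => by ring

/-! ### The quadratic form of the conditional mean -/

/-- sum over a class -/
noncomputable def cs (π : Ω → Fin p) (u : Ω → ℝ) (v : Fin p) : ℝ := ∑ i with π i = v, u i

theorem sum_cs (π : Ω → Fin p) (u : Ω → ℝ) : ∑ v, cs π u v = ∑ i, u i := by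
  unfold cs
  exact Finset.sum_fiberwise univ π u

theorem mean_mul_cmean (π : Ω → Fin p) (u : Ω → ℝ) :
    mean (fun i => u i * cmean π u i)
      = (p : ℝ) / (Fintype.card Ω) ^ 2 * ∑ v, cs π u v ^ 2 := by
  have e1 : ∑ i, u i * cmean π u i
      = ∑ v, ∑ i with π i = v, u i * cmean π u i :=
    (Finset.sum_fiberwise univ π _).symm
  have e2 : ∀ v, ∑ i with π i = v, u i * cmean π u i
      = (p : ℝ) / (Fintype.card Ω) * cs π u v ^ 2 := by
    intro v
    have : ∀ i ∈ univ.filter (fun i => π i = v), u i * cmean π u i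
        = u i * ((p : ℝ) / (Fintype.card Ω) * cs π u v) := by
      intro i hi
      rw [Finset.mem_filter] at hi
      unfold cmean cs
      rw [hi.2]
      ring
    rw [Finset.sum_congr rfl this, ← Finset.sum_mul]
    unfold cs
    ring
  unfold mean
  rw [e1, Finset.sum_congr rfl (fun v _ => e2 v), ← Finset.mul_sum]
  ring

theorem mean_sq_le_mul_cmean [Nonempty Ω] (π : Ω → Fin p) (u : Ω → ℝ) :
    mean u ^ 2 ≤ mean (fun i => u i * cmean π u i) := by
  have hn : (0 : ℝ) < Fintype.card Ω := by exact_mod_cast Fintype.card_pos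
  rw [mean_mul_cmean]
  unfold mean
  rw [← sum_cs π u]
  have h := sq_sum_le_card_mul_sum_sq (s := (univ : Finset (Fin p))) (f := cs π u)
  rw [Finset.card_univ, Fintype.card_fin] at h
  rw [div_pow, div_mul_eq_mul_div, div_le_div_iff_of_pos_right (by positivity)]
  exact h

theorem opB_quad (π : Fin r → Ω → Fin p) (τ T : ℝ) (u : Ω → ℝ) :
    mean (fun i => u i * opB π τ T u i)
      = τ * mean u ^ 2 + T * ∑ c, (mean (fun i => u i * cmean (π c) u i) - mean u ^ 2) := by
  have e1 : ∀ i, u i * opB π τ T u i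
      = τ * mean u * u i + T * ∑ c, (u i * cmean (π c) u i - mean u * u i) := by
    intro i
    unfold opB
    rw [mul_add, Finset.mul_sum, Finset.mul_sum, Finset.mul_sum]
    congr 1
    · ring
    · refine Finset.sum_congr rfl fun c _ => by ring
  simp only [e1, mean_add, mean_smul, mean_sum, mean_sub]
  congr 1
  · ring
  · congr 1
    refine Finset.sum_congr rfl fun c _ => by ring

theorem opB_psd [Nonempty Ω] (π : Fin r → Ω → Fin p) {τ T : ℝ} (hτ : 0 ≤ τ) (hT : 0 ≤ T)
    (u : Ω → ℝ) : 0 ≤ mean (fun i => u i * opB π τ T u i) := by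
  rw [opB_quad]
  have h1 : ∀ c, 0 ≤ mean (fun i => u i * cmean (π c) u i) - mean u ^ 2 := fun c =>
    sub_nonneg.2 (mean_sq_le_mul_cmean (π c) u)
  have h2 : 0 ≤ ∑ c, (mean (fun i => u i * cmean (π c) u i) - mean u ^ 2) :=
    Finset.sum_nonneg fun c _ => h1 c
  have := mul_nonneg hτ (sq_nonneg (mean u))
  have := mul_nonneg hT h2
  linarith

/-- `u` supported on `Z`, `Z` rare in every class -/
theorem opB_quad_le [Nonempty Ω] (π : Fin r → Ω → Fin p)
    (hcl : ∀ c v, p * (univ.filter (fun i => π c i = v)).card = Fintype.card Ω)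
    {τ T P0 : ℝ} (hτ : 0 ≤ τ) (hT : 0 ≤ T) (_hP0 : 0 ≤ P0) (hr : 0 < r) (Z : Finset Ω)
    (hZ : ∀ c v, ((Z.filter (fun i => π c i = v)).card : ℝ)
      ≤ P0 * (univ.filter (fun i => π c i = v)).card)
    (u : Ω → ℝ) (hu : ∀ i, i ∉ Z → u i = 0) :
    mean (fun i => u i * opB π τ T u i) ≤ (τ + T * r) * P0 * mean (fun i => u i ^ 2) := by
  have hn : (0 : ℝ) < Fintype.card Ω := by exact_mod_cast Fintype.card_pos
  have hm : 0 ≤ mean (fun i => u i ^ 2) := mean_nonneg fun i => sq_nonneg _
  -- class sums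
  have hS : ∀ c v, cs (π c) u v ^ 2
      ≤ P0 * (univ.filter (fun i => π c i = v)).card * ∑ i with π c i = v, u i ^ 2 := by
    intro c v
    have e : cs (π c) u v = ∑ i ∈ Z.filter (fun i => π c i = v), u i := by
      unfold cs
      symm
      refine Finset.sum_subset (fun i hi => ?_) (fun i hi hi' => ?_)
      · rw [Finset.mem_filter] at hi ⊢
        exact ⟨mem_univ _, hi.2⟩
      · rw [Finset.mem_filter] at hi hi'
        exact hu i (fun h => hi' ⟨h, hi.2⟩)
    rw [e]
    have h1 := sq_sum_le_card_mul_sum_sq (s := Z.filter (fun i => π c i = v)) (f := u)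
    have h2 : ∑ i ∈ Z.filter (fun i => π c i = v), u i ^ 2 ≤ ∑ i with π c i = v, u i ^ 2 := by
      refine Finset.sum_le_sum_of_subset_of_nonneg (fun i hi => ?_) (fun i _ _ => sq_nonneg _)
      rw [Finset.mem_filter] at hi ⊢
      exact ⟨mem_univ _, hi.2⟩
    have h3 : 0 ≤ ∑ i with π c i = v, u i ^ 2 := Finset.sum_nonneg fun i _ => sq_nonneg _
    calc (∑ i ∈ Z.filter (fun i => π c i = v), u i) ^ 2
        ≤ (Z.filter (fun i => π c i = v)).card * ∑ i ∈ Z.filter (fun i => π c i = v), u i ^ 2 := h1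
      _ ≤ (Z.filter (fun i => π c i = v)).card * ∑ i with π c i = v, u i ^ 2 :=
          mul_le_mul_of_nonneg_left h2 (Nat.cast_nonneg _)
      _ ≤ _ := mul_le_mul_of_nonneg_right (hZ c v) h3
  have hq : ∀ c, mean (fun i => u i * cmean (π c) u i) ≤ P0 * mean (fun i => u i ^ 2) := by
    intro c
    rw [mean_mul_cmean]
    have h1 : ∑ v, cs (π c) u v ^ 2 * (p : ℝ) ≤ P0 * Fintype.card Ω * ∑ i, u i ^ 2 := by
      rw [← Finset.sum_fiberwise univ (π c) (fun i => u i ^ 2), Finset.mul_sum]
      refine Finset.sum_le_sum fun v _ => ?_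
      have h2 := mul_le_mul_of_nonneg_right (hS c v) (Nat.cast_nonneg (α := ℝ) p)
      have h3 : (p : ℝ) * (univ.filter (fun i => π c i = v)).card = Fintype.card Ω := by
        exact_mod_cast hcl c v
      calc cs (π c) u v ^ 2 * (p : ℝ) ≤ _ := h2
        _ = P0 * ((p : ℝ) * (univ.filter (fun i => π c i = v)).card)
              * ∑ i with π c i = v, u i ^ 2 := by ring
        _ = _ := by rw [h3]
    rw [← Finset.sum_mul] at h1
    unfold mean
    rw [div_mul_eq_mul_div, mul_div_assoc', div_le_div_iff₀ (by positivity) hn]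
    nlinarith [mul_le_mul_of_nonneg_right h1 hn.le]
  have hm2 : mean u ^ 2 ≤ P0 * mean (fun i => u i ^ 2) :=
    (mean_sq_le_mul_cmean (π ⟨0, hr⟩) u).trans (hq ⟨0, hr⟩)
  rw [opB_quad]
  have h4 : ∑ c : Fin r, (mean (fun i => u i * cmean (π c) u i) - mean u ^ 2)
      ≤ ∑ _c : Fin r, P0 * mean (fun i => u i ^ 2) :=
    Finset.sum_le_sum fun c _ => by
      have := hq c
      have := sq_nonneg (mean u)
      linarith
  rw [Finset.sum_const, Finset.card_univ, Fintype.card_fin, nsmul_eq_mul] at h4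
  have h5 := mul_le_mul_of_nonneg_left h4 hT
  have h6 := mul_le_mul_of_nonneg_left hm2 hτ
  nlinarith [h5, h6]

/-- pointwise upper bound of `B w` for `0 ≤ w`, `w` supported on `Z`, `w ≤ y`, `E y² ≤ 1` -/
theorem opB_le [Nonempty Ω] (π : Fin r → Ω → Fin p)
    (hcl : ∀ c v, p * (univ.filter (fun i => π c i = v)).card = Fintype.card Ω)
    {τ T P0 : ℝ} (hτ : 0 ≤ τ) (hT : 0 ≤ T) (hP0 : 0 ≤ P0) (hr : 0 < r) (Z : Finset Ω)
    (hZ : ∀ c v, ((Z.filter (fun i => π c i = v)).card : ℝ)
      ≤ P0 * (univ.filter (fun i => π c i = v)).card)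
    (y w : Ω → ℝ) (hy2 : ∑ i, y i ^ 2 ≤ Fintype.card Ω)
    (hw : ∀ i, i ∉ Z → w i = 0) (hw0 : ∀ i, 0 ≤ w i) (hwy : ∀ i, w i ≤ y i) (i : Ω) :
    opB π τ T w i ≤ (τ + T * r) * Real.sqrt (p * P0) := by
  have hn : (0 : ℝ) < Fintype.card Ω := by exact_mod_cast Fintype.card_pos
  have hy2' : ∀ s : Finset Ω, ∑ i ∈ s, w i ^ 2 ≤ Fintype.card Ω := by
    intro s
    calc ∑ i ∈ s, w i ^ 2 ≤ ∑ i, w i ^ 2 :=
          Finset.sum_le_sum_of_subset_of_nonneg (fun _ _ => mem_univ _) fun i _ _ => sq_nonneg _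
      _ ≤ ∑ i, y i ^ 2 := Finset.sum_le_sum fun i _ => by
          have := hw0 i
          have := hwy i
          exact pow_le_pow_left₀ (hw0 i) (hwy i) 2
      _ ≤ _ := hy2
  have hc : ∀ c, cmean (π c) w i ≤ Real.sqrt (p * P0) := by
    intro c
    have h3 : (p : ℝ) * (univ.filter (fun j => π c j = π c i)).card = Fintype.card Ω := by
      exact_mod_cast hcl c (π c i)
    have e : ∑ j with π c j = π c i, w j = ∑ j ∈ Z.filter (fun j => π c j = π c i), w j := by
      symm
      refine Finset.sum_subset (fun j hj => ?_) (fun j hj hj' => ?_)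
      · rw [Finset.mem_filter] at hj ⊢
        exact ⟨mem_univ _, hj.2⟩
      · rw [Finset.mem_filter] at hj hj'
        exact hw j (fun h => hj' ⟨h, hj.2⟩)
    refine Real.le_sqrt_of_sq_le ?_
    have h1 := sq_sum_le_card_mul_sum_sq (s := Z.filter (fun j => π c j = π c i)) (f := w)
    have h2 : (∑ j ∈ Z.filter (fun j => π c j = π c i), w j) ^ 2
        ≤ P0 * (univ.filter (fun j => π c j = π c i)).card * Fintype.card Ω :=
      h1.trans ((mul_le_mul_of_nonneg_left (hy2' _) (Nat.cast_nonneg _)).trans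
        (mul_le_mul_of_nonneg_right (hZ c (π c i)) hn.le))
    unfold cmean
    rw [e, div_pow, div_le_iff₀ (by positivity), mul_pow]
    have hp0 : (0 : ℝ) ≤ p := Nat.cast_nonneg p
    calc (p : ℝ) ^ 2 * (∑ j ∈ Z.filter (fun j => π c j = π c i), w j) ^ 2
        ≤ (p : ℝ) ^ 2 * (P0 * (univ.filter (fun j => π c j = π c i)).card * Fintype.card Ω) :=
          mul_le_mul_of_nonneg_left h2 (sq_nonneg _)
      _ = p * P0 * ((p * (univ.filter (fun j => π c j = π c i)).card) * Fintype.card Ω) := by ring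
      _ = p * P0 * (Fintype.card Ω : ℝ) ^ 2 := by rw [h3]; ring
  have hm0 : 0 ≤ mean w := mean_nonneg hw0
  have hm : mean w ≤ Real.sqrt (p * P0) := by
    refine Real.le_sqrt_of_sq_le ?_
    have hp1 : (1 : ℝ) ≤ p := by
      have : 0 < p := by
        rcases Nat.eq_zero_or_pos p with h | h
        · have := hcl ⟨0, hr⟩
          subst h
          exact absurd (π ⟨0, hr⟩ i).2 (by simp)
        · exact h
      exact_mod_cast this
    have hZc : ((Z.card : ℝ)) ≤ P0 * Fintype.card Ω := by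
      have e1 : Z.card = ∑ v, (Z.filter (fun i => π ⟨0, hr⟩ i = v)).card :=
        Finset.card_eq_sum_card_fiberwise (fun _ _ => mem_univ _)
      have e2 : Fintype.card Ω = ∑ v, (univ.filter (fun i => π ⟨0, hr⟩ i = v)).card := by
        rw [← Finset.card_univ]
        exact Finset.card_eq_sum_card_fiberwise (fun _ _ => mem_univ _)
      rw [e1, e2]
      push_cast
      rw [Finset.mul_sum]
      exact Finset.sum_le_sum fun v _ => hZ ⟨0, hr⟩ v
    have e : ∑ j, w j = ∑ j ∈ Z, w j := by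
      symm
      exact Finset.sum_subset (fun _ _ => mem_univ _) fun j _ hj => hw j hj
    have h1 := sq_sum_le_card_mul_sum_sq (s := Z) (f := w)
    unfold mean
    rw [div_pow, div_le_iff₀ (by positivity), e]
    calc (∑ j ∈ Z, w j) ^ 2 ≤ Z.card * ∑ j ∈ Z, w j ^ 2 := h1
      _ ≤ Z.card * Fintype.card Ω := mul_le_mul_of_nonneg_left (hy2' _) (Nat.cast_nonneg _)
      _ ≤ P0 * Fintype.card Ω * Fintype.card Ω := mul_le_mul_of_nonneg_right hZc hn.le
      _ = 1 * (P0 * (Fintype.card Ω : ℝ) ^ 2) := by ring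
      _ ≤ p * (P0 * (Fintype.card Ω : ℝ) ^ 2) := mul_le_mul_of_nonneg_right hp1 (by positivity)
      _ = _ := by ring
  unfold opB
  have h1 : ∑ c, (cmean (π c) w i - mean w) ≤ ∑ _c : Fin r, Real.sqrt (p * P0) :=
    Finset.sum_le_sum fun c _ => by
      have := hc c
      linarith
  rw [Finset.sum_const, Finset.card_univ, Fintype.card_fin, nsmul_eq_mul] at h1
  have h2 := mul_le_mul_of_nonneg_left h1 hT
  have h3 := mul_le_mul_of_nonneg_left hm hτ
  nlinarith [h2, h3]

/-! ### The second derivative -/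

/-- the data of the correction function: `γ`, its derivatives `g1`, `g2` -/
structure GamData (η : ℝ) (γ g1 g2 : ℝ → ℝ) : Prop where
  d0 : ∀ s, HasDerivAt γ (g1 s) s
  d1 : ∀ s, HasDerivAt g1 (g2 s) s
  lo : ∀ s, -s - 2 * η ≤ γ s
  ge : ∀ s, 0 ≤ γ s
  up : ∀ s, γ s ≤ |s|
  z0 : ∀ s, -η ≤ s → γ s = 0
  z1 : ∀ s, -η ≤ s → g1 s = 0
  g1n : ∀ s, -1 ≤ g1 s
  g1p : ∀ s, g1 s ≤ 0
  g2n : ∀ s, 0 ≤ g2 s

/-- the bad set is rare in every class, for every admissible `y` -/
def Rare (π : Fin r → Ω → Fin p) (τ T η P0 : ℝ) : Prop :=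
  ∀ y : Ω → ℝ, (∀ i, 0 ≤ y i) → ∑ i, y i ^ 2 ≤ Fintype.card Ω → ∀ c v,
    ((univ.filter (fun i => opB π τ T y i < -η ∧ π c i = v)).card : ℝ)
      ≤ P0 * (univ.filter (fun i => π c i = v)).card

theorem second_nonneg [Nonempty Ω] (π : Fin r → Ω → Fin p)
    (hcl : ∀ c v, p * (univ.filter (fun i => π c i = v)).card = Fintype.card Ω)
    {τ T P0 η : ℝ} (hτ : 0 ≤ τ) (hT : 0 ≤ T) (hP0 : 0 ≤ P0) (hr : 0 < r)
    (hrare : Rare π τ T η P0) (h1 : (τ + T * r) * P0 ≤ 1)
    (h2 : (τ + T * r) * Real.sqrt (p * P0) ≤ η)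
    {γ g1 g2 : ℝ → ℝ} (hg : GamData η γ g1 g2)
    (x v : Ω → ℝ) (hx : ∑ i, x i ^ 4 ≤ Fintype.card Ω) :
    0 ≤ 12 * η * mean (fun i => v i ^ 2) + 12 * mean (fun i => (x i * v i) ^ 2)
      + 4 * mean (fun i => v i ^ 2 * opB π τ T (fun j => x j ^ 2) i)
      + 8 * mean (fun i => (x i * v i) * opB π τ T (fun j => x j * v j) i)
      + 4 * mean (fun i => v i ^ 2 * γ (opB π τ T (fun j => x j ^ 2) i))
      + 16 * mean (fun i => (x i * v i) * (g1 (opB π τ T (fun j => x j ^ 2) i)
          * opB π τ T (fun j => x j * v j) i))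
      + 8 * mean (fun i => x i ^ 2 * (g2 (opB π τ T (fun j => x j ^ 2) i)
          * opB π τ T (fun j => x j * v j) i ^ 2))
      + 4 * mean (fun i => x i ^ 2 * (g1 (opB π τ T (fun j => x j ^ 2) i)
          * opB π τ T (fun j => v j ^ 2) i)) := by
  set y : Ω → ℝ := fun j => x j ^ 2 with hy
  set g : Ω → ℝ := opB π τ T y with hgdef
  set q : Ω → ℝ := fun j => x j * v j with hq
  set Z : Finset Ω := univ.filter (fun i => g i < -η) with hZdef
  have hy2 : ∑ i, y i ^ 2 ≤ Fintype.card Ω := by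
    have : ∀ i, y i ^ 2 = x i ^ 4 := fun i => by simp only [hy]; ring
    rw [Finset.sum_congr rfl fun i _ => this i]
    exact hx
  have hy0 : ∀ i, 0 ≤ y i := fun i => by simp only [hy]; positivity
  have hZ : ∀ c v, ((Z.filter (fun i => π c i = v)).card : ℝ)
      ≤ P0 * (univ.filter (fun i => π c i = v)).card := by
    intro c w
    have := hrare y hy0 hy2 c w
    rw [hZdef, Finset.filter_filter]
    exact this
  have hnZ : ∀ i, i ∉ Z → -η ≤ g i := by
    intro i hi
    rw [hZdef, Finset.mem_filter] at hi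
    by_contra h
    exact hi ⟨mem_univ _, not_le.1 h⟩
  -- (a)
  have ha : -2 * η * mean (fun i => v i ^ 2)
      ≤ mean (fun i => v i ^ 2 * g i) + mean (fun i => v i ^ 2 * γ (g i)) := by
    rw [← mean_add, ← mean_smul]
    refine mean_mono fun i => ?_
    have := hg.lo (g i)
    nlinarith [sq_nonneg (v i)]
  -- (b)
  set u : Ω → ℝ := fun i => -(g1 (g i)) * q i with hu
  have hb : 2 * mean (fun i => u i * opB π τ T q i)
      ≤ mean (fun i => q i * opB π τ T q i) + mean (fun i => u i * opB π τ T u i) := by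
    have h := opB_psd π hτ hT (fun i => q i + (-1) * u i)
    have e : ∀ i, (q i + (-1) * u i) * opB π τ T (fun i => q i + (-1) * u i) i
        = (q i * opB π τ T q i + u i * opB π τ T u i)
          + (-1) * (u i * opB π τ T q i + q i * opB π τ T u i) := by
      intro i
      rw [opB_add, opB_smul]
      ring
    rw [show (fun i => (q i + (-1) * u i) * opB π τ T (fun i => q i + (-1) * u i) i)
      = fun i => (q i * opB π τ T q i + u i * opB π τ T u i)
          + (-1) * (u i * opB π τ T q i + q i * opB π τ T u i) from funext e] at h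
    rw [mean_add, mean_add, mean_smul, mean_add] at h
    have hs : mean (fun i => q i * opB π τ T u i) = mean (fun i => u i * opB π τ T q i) := by
      rw [mean_mul_opB_comm]
      congr 1
      funext i
      ring
    linarith
  -- (c)
  have hc : mean (fun i => u i * opB π τ T u i) ≤ mean (fun i => q i ^ 2) := by
    have hu0 : ∀ i, i ∉ Z → u i = 0 := fun i hi => by
      simp only [hu, hg.z1 _ (hnZ i hi)]
      ring
    have h3 := opB_quad_le π hcl hτ hT hP0 hr Z hZ u hu0
    have h4 : mean (fun i => u i ^ 2) ≤ mean (fun i => q i ^ 2) := by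
      refine mean_mono fun i => ?_
      have e : u i ^ 2 = (-(g1 (g i))) ^ 2 * q i ^ 2 := by simp only [hu]; ring
      have h5 : (-(g1 (g i))) ^ 2 ≤ 1 := by
        have := hg.g1n (g i)
        have := hg.g1p (g i)
        nlinarith
      rw [e]
      nlinarith [sq_nonneg (q i)]
    have h5 : 0 ≤ mean (fun i => u i ^ 2) := mean_nonneg fun i => sq_nonneg _
    nlinarith
  -- (d)
  have hd : 0 ≤ mean (fun i => y i * (g2 (g i) * opB π τ T q i ^ 2)) :=
    mean_nonneg fun i => mul_nonneg (hy0 i) (mul_nonneg (hg.g2n _) (sq_nonneg _))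
  -- (e)
  set w : Ω → ℝ := fun i => -(g1 (g i)) * y i with hw
  have he : -η * mean (fun i => v i ^ 2)
      ≤ mean (fun i => y i * (g1 (g i) * opB π τ T (fun j => v j ^ 2) i)) := by
    have e1 : mean (fun i => y i * (g1 (g i) * opB π τ T (fun j => v j ^ 2) i))
        = -mean (fun i => v i ^ 2 * opB π τ T w i) := by
      have : ∀ i, y i * (g1 (g i) * opB π τ T (fun j => v j ^ 2) i)
          = (-1) * (w i * opB π τ T (fun j => v j ^ 2) i) := fun i => by
        simp only [hw]; ring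
      rw [show (fun i => y i * (g1 (g i) * opB π τ T (fun j => v j ^ 2) i))
        = fun i => (-1) * (w i * opB π τ T (fun j => v j ^ 2) i) from funext this,
        mean_smul, mean_mul_opB_comm]
      have : (fun i => opB π τ T w i * v i ^ 2) = fun i => v i ^ 2 * opB π τ T w i :=
        funext fun i => by ring
      rw [this]
      ring
    have hw0 : ∀ i, i ∉ Z → w i = 0 := fun i hi => by
      simp only [hw, hg.z1 _ (hnZ i hi)]
      ring
    have hwn : ∀ i, 0 ≤ w i := fun i => by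
      have := hg.g1p (g i)
      exact mul_nonneg (by linarith) (hy0 i)
    have hwy : ∀ i, w i ≤ y i := fun i => by
      have := hg.g1n (g i)
      have := hy0 i
      simp only [hw]
      nlinarith
    have h6 : ∀ i, opB π τ T w i ≤ η := fun i =>
      (opB_le π hcl hτ hT hP0 hr Z hZ y w hy2 hw0 hwn hwy i).trans h2
    rw [e1, ← neg_mul_eq_neg_mul, neg_le_neg_iff, ← mean_smul]
    refine mean_mono fun i => ?_
    have := h6 i
    nlinarith [sq_nonneg (v i)]
  have e16 : mean (fun i => q i * (g1 (g i) * opB π τ T q i))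
      = -mean (fun i => u i * opB π τ T q i) := by
    have : ∀ i, q i * (g1 (g i) * opB π τ T q i) = (-1) * (u i * opB π τ T q i) := fun i => by
      simp only [hu]; ring
    rw [show (fun i => q i * (g1 (g i) * opB π τ T q i))
      = fun i => (-1) * (u i * opB π τ T q i) from funext this, mean_smul]
    ring
  have hq2 : 0 ≤ mean (fun i => q i ^ 2) := mean_nonneg fun i => sq_nonneg _
  rw [e16]
  linarith

/-! ### Derivatives along a line -/

theorem hasDerivAt_mean {f f' : ℝ → Ω → ℝ} {s : ℝ}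
    (h : ∀ i, HasDerivAt (fun s => f s i) (f' s i) s) :
    HasDerivAt (fun s => mean (f s)) (mean (f' s)) s := by
  unfold mean
  exact (HasDerivAt.fun_sum fun i _ => h i).div_const _

theorem hasDerivAt_cmean (π : Ω → Fin p) {f f' : ℝ → Ω → ℝ} {s : ℝ}
    (h : ∀ i, HasDerivAt (fun s => f s i) (f' s i) s) (i : Ω) :
    HasDerivAt (fun s => cmean π (f s) i) (cmean π (f' s) i) s := by
  unfold cmean
  exact ((HasDerivAt.fun_sum fun i _ => h i).const_mul _).div_const _

theorem hasDerivAt_opB (π : Fin r → Ω → Fin p) (τ T : ℝ) {f f' : ℝ → Ω → ℝ} {s : ℝ}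
    (h : ∀ i, HasDerivAt (fun s => f s i) (f' s i) s) (i : Ω) :
    HasDerivAt (fun s => opB π τ T (f s) i) (opB π τ T (f' s) i) s := by
  unfold opB
  exact ((hasDerivAt_mean h).const_mul _).add
    ((HasDerivAt.fun_sum fun c _ => (hasDerivAt_cmean (π c) h i).sub (hasDerivAt_mean h)).const_mul _)

/-- first derivative along the line -/
noncomputable def lineD (π : Fin r → Ω → Fin p) (τ T η : ℝ) (γ g1 : ℝ → ℝ) (x v : Ω → ℝ)
    (s : ℝ) : ℝ :=
  6 * η * mean (fun i => 2 * ((x i + s * v i) * v i))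
    + (mean (fun i => 4 * (x i + s * v i) ^ 3 * v i)
      + mean (fun i => 2 * ((x i + s * v i) * v i) * opB π τ T (fun j => (x j + s * v j) ^ 2) i
          + (x i + s * v i) ^ 2 * opB π τ T (fun j => 2 * ((x j + s * v j) * v j)) i))
    + 2 * mean (fun i => 2 * ((x i + s * v i) * v i)
          * γ (opB π τ T (fun j => (x j + s * v j) ^ 2) i)
        + (x i + s * v i) ^ 2 * (g1 (opB π τ T (fun j => (x j + s * v j) ^ 2) i)
          * opB π τ T (fun j => 2 * ((x j + s * v j) * v j)) i))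

/-- second derivative along the line -/
noncomputable def lineD2 (π : Fin r → Ω → Fin p) (τ T η : ℝ) (γ g1 g2 : ℝ → ℝ) (x v : Ω → ℝ)
    (s : ℝ) : ℝ :=
  6 * η * mean (fun i => 2 * v i ^ 2)
    + (mean (fun i => 12 * (x i + s * v i) ^ 2 * v i ^ 2)
      + mean (fun i => (2 * v i ^ 2 * opB π τ T (fun j => (x j + s * v j) ^ 2) i
          + 2 * ((x i + s * v i) * v i) * opB π τ T (fun j => 2 * ((x j + s * v j) * v j)) i)
          + (2 * ((x i + s * v i) * v i) * opB π τ T (fun j => 2 * ((x j + s * v j) * v j)) i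
          + (x i + s * v i) ^ 2 * opB π τ T (fun j => 2 * v j ^ 2) i)))
    + 2 * mean (fun i => (2 * v i ^ 2 * γ (opB π τ T (fun j => (x j + s * v j) ^ 2) i)
          + 2 * ((x i + s * v i) * v i) * (g1 (opB π τ T (fun j => (x j + s * v j) ^ 2) i)
              * opB π τ T (fun j => 2 * ((x j + s * v j) * v j)) i))
        + (2 * ((x i + s * v i) * v i) * (g1 (opB π τ T (fun j => (x j + s * v j) ^ 2) i)
              * opB π τ T (fun j => 2 * ((x j + s * v j) * v j)) i)
          + (x i + s * v i) ^ 2 * (g2 (opB π τ T (fun j => (x j + s * v j) ^ 2) i)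
              * opB π τ T (fun j => 2 * ((x j + s * v j) * v j)) i
              * opB π τ T (fun j => 2 * ((x j + s * v j) * v j)) i
            + g1 (opB π τ T (fun j => (x j + s * v j) ^ 2) i)
              * opB π τ T (fun j => 2 * v j ^ 2) i)))

theorem line_hasDerivAt (π : Fin r → Ω → Fin p) (τ T : ℝ) {η : ℝ}
    {γ g1 g2 : ℝ → ℝ} (hg : GamData η γ g1 g2) (x v : Ω → ℝ) (s : ℝ) :
    HasDerivAt (fun s => formF π τ T η γ (fun i => x i + s * v i))
      (lineD π τ T η γ g1 x v s) s := by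
  have hX : ∀ i, HasDerivAt (fun s : ℝ => x i + s * v i) (v i) s := fun i => by
    simpa using ((hasDerivAt_id s).mul_const (v i)).const_add (x i)
  have hY : ∀ i, HasDerivAt (fun s : ℝ => (x i + s * v i) ^ 2) (2 * ((x i + s * v i) * v i)) s :=
    fun i => by
      have := (hX i).pow 2
      refine this.congr_deriv ?_
      simp only [Nat.cast_ofNat, Nat.add_one_sub_one, pow_one]
      ring
  have hB : ∀ i, HasDerivAt (fun s : ℝ => opB π τ T (fun j => (x j + s * v j) ^ 2) i)
      (opB π τ T (fun j => 2 * ((x j + s * v j) * v j)) i) s :=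
    hasDerivAt_opB π τ T (f := fun s i => (x i + s * v i) ^ 2)
      (f' := fun s i => 2 * ((x i + s * v i) * v i)) hY
  have hY4 : ∀ i, HasDerivAt (fun s : ℝ => (x i + s * v i) ^ 4)
      (4 * (x i + s * v i) ^ 3 * v i) s := fun i => by
    have := (hX i).pow 4
    refine this.congr_deriv ?_
    simp only [Nat.cast_ofNat, Nat.add_one_sub_one]
  have hγ : ∀ i, HasDerivAt (fun s : ℝ => γ (opB π τ T (fun j => (x j + s * v j) ^ 2) i))
      (g1 (opB π τ T (fun j => (x j + s * v j) ^ 2) i)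
        * opB π τ T (fun j => 2 * ((x j + s * v j) * v j)) i) s := fun i =>
    (hg.d0 _).comp s (hB i)
  have m1 := hasDerivAt_mean (f := fun s i => (x i + s * v i) ^ 2)
    (f' := fun s i => 2 * ((x i + s * v i) * v i)) hY
  have m2 := hasDerivAt_mean (f := fun s i => (x i + s * v i) ^ 4)
    (f' := fun s i => 4 * (x i + s * v i) ^ 3 * v i) hY4
  have m3 := hasDerivAt_mean
    (f := fun s i => (x i + s * v i) ^ 2 * opB π τ T (fun j => (x j + s * v j) ^ 2) i)
    (f' := fun s i => 2 * ((x i + s * v i) * v i) * opB π τ T (fun j => (x j + s * v j) ^ 2) i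
          + (x i + s * v i) ^ 2 * opB π τ T (fun j => 2 * ((x j + s * v j) * v j)) i)
    (s := s) (fun i => (hY i).mul (hB i))
  have m4 := hasDerivAt_mean
    (f := fun s i => (x i + s * v i) ^ 2 * γ (opB π τ T (fun j => (x j + s * v j) ^ 2) i))
    (f' := fun s i => 2 * ((x i + s * v i) * v i)
          * γ (opB π τ T (fun j => (x j + s * v j) ^ 2) i)
        + (x i + s * v i) ^ 2 * (g1 (opB π τ T (fun j => (x j + s * v j) ^ 2) i)
          * opB π τ T (fun j => 2 * ((x j + s * v j) * v j)) i))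
    (s := s) (fun i => (hY i).mul (hγ i))
  unfold formF formP lineD
  exact ((m1.const_mul _).add (m2.add m3)).add (m4.const_mul _)

theorem lineD_hasDerivAt (π : Fin r → Ω → Fin p) (τ T : ℝ) {η : ℝ}
    {γ g1 g2 : ℝ → ℝ} (hg : GamData η γ g1 g2) (x v : Ω → ℝ) (s : ℝ) :
    HasDerivAt (lineD π τ T η γ g1 x v) (lineD2 π τ T η γ g1 g2 x v s) s := by
  have hX : ∀ i, HasDerivAt (fun s : ℝ => x i + s * v i) (v i) s := fun i => by
    simpa using ((hasDerivAt_id s).mul_const (v i)).const_add (x i)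
  have hY : ∀ i, HasDerivAt (fun s : ℝ => (x i + s * v i) ^ 2) (2 * ((x i + s * v i) * v i)) s :=
    fun i => by
      have := (hX i).pow 2
      refine this.congr_deriv ?_
      simp only [Nat.cast_ofNat, Nat.add_one_sub_one, pow_one]
      ring
  have hY2 : ∀ i, HasDerivAt (fun s : ℝ => 2 * ((x i + s * v i) * v i)) (2 * v i ^ 2) s :=
    fun i => by
      have := ((hX i).mul_const (v i)).const_mul 2
      refine this.congr_deriv ?_
      ring
  have hY3 : ∀ i, HasDerivAt (fun s : ℝ => 4 * (x i + s * v i) ^ 3 * v i)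
      (12 * (x i + s * v i) ^ 2 * v i ^ 2) s := fun i => by
    have := (((hX i).pow 3).const_mul 4).mul_const (v i)
    refine this.congr_deriv ?_
    simp only [Nat.cast_ofNat, Nat.add_one_sub_one]
    ring
  have hB : ∀ i, HasDerivAt (fun s : ℝ => opB π τ T (fun j => (x j + s * v j) ^ 2) i)
      (opB π τ T (fun j => 2 * ((x j + s * v j) * v j)) i) s :=
    hasDerivAt_opB π τ T (f := fun s i => (x i + s * v i) ^ 2)
      (f' := fun s i => 2 * ((x i + s * v i) * v i)) hY
  have hB2 : ∀ i, HasDerivAt (fun s : ℝ => opB π τ T (fun j => 2 * ((x j + s * v j) * v j)) i)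
      (opB π τ T (fun j => 2 * v j ^ 2) i) s :=
    hasDerivAt_opB π τ T (f := fun s i => 2 * ((x i + s * v i) * v i))
      (f' := fun _ i => 2 * v i ^ 2) hY2
  have hγ : ∀ i, HasDerivAt (fun s : ℝ => γ (opB π τ T (fun j => (x j + s * v j) ^ 2) i))
      (g1 (opB π τ T (fun j => (x j + s * v j) ^ 2) i)
        * opB π τ T (fun j => 2 * ((x j + s * v j) * v j)) i) s := fun i =>
    (hg.d0 _).comp s (hB i)
  have hg1 : ∀ i, HasDerivAt (fun s : ℝ => g1 (opB π τ T (fun j => (x j + s * v j) ^ 2) i))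
      (g2 (opB π τ T (fun j => (x j + s * v j) ^ 2) i)
        * opB π τ T (fun j => 2 * ((x j + s * v j) * v j)) i) s := fun i =>
    (hg.d1 _).comp s (hB i)
  have m1 := hasDerivAt_mean (f := fun s i => 2 * ((x i + s * v i) * v i))
    (f' := fun _ i => 2 * v i ^ 2) hY2
  have m2 := hasDerivAt_mean (f := fun s i => 4 * (x i + s * v i) ^ 3 * v i)
    (f' := fun s i => 12 * (x i + s * v i) ^ 2 * v i ^ 2) hY3
  have m3 := hasDerivAt_mean
    (f := fun s i => 2 * ((x i + s * v i) * v i) * opB π τ T (fun j => (x j + s * v j) ^ 2) i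
          + (x i + s * v i) ^ 2 * opB π τ T (fun j => 2 * ((x j + s * v j) * v j)) i)
    (f' := fun s i => (2 * v i ^ 2 * opB π τ T (fun j => (x j + s * v j) ^ 2) i
          + 2 * ((x i + s * v i) * v i) * opB π τ T (fun j => 2 * ((x j + s * v j) * v j)) i)
          + (2 * ((x i + s * v i) * v i) * opB π τ T (fun j => 2 * ((x j + s * v j) * v j)) i
          + (x i + s * v i) ^ 2 * opB π τ T (fun j => 2 * v j ^ 2) i))
    (s := s) (fun i => ((hY2 i).mul (hB i)).add ((hY i).mul (hB2 i)))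
  have m4 := hasDerivAt_mean
    (f := fun s i => 2 * ((x i + s * v i) * v i)
          * γ (opB π τ T (fun j => (x j + s * v j) ^ 2) i)
        + (x i + s * v i) ^ 2 * (g1 (opB π τ T (fun j => (x j + s * v j) ^ 2) i)
          * opB π τ T (fun j => 2 * ((x j + s * v j) * v j)) i))
    (f' := fun s i => (2 * v i ^ 2 * γ (opB π τ T (fun j => (x j + s * v j) ^ 2) i)
          + 2 * ((x i + s * v i) * v i) * (g1 (opB π τ T (fun j => (x j + s * v j) ^ 2) i)
              * opB π τ T (fun j => 2 * ((x j + s * v j) * v j)) i))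
        + (2 * ((x i + s * v i) * v i) * (g1 (opB π τ T (fun j => (x j + s * v j) ^ 2) i)
              * opB π τ T (fun j => 2 * ((x j + s * v j) * v j)) i)
          + (x i + s * v i) ^ 2 * (g2 (opB π τ T (fun j => (x j + s * v j) ^ 2) i)
              * opB π τ T (fun j => 2 * ((x j + s * v j) * v j)) i
              * opB π τ T (fun j => 2 * ((x j + s * v j) * v j)) i
            + g1 (opB π τ T (fun j => (x j + s * v j) ^ 2) i)
              * opB π τ T (fun j => 2 * v j ^ 2) i)))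
    (s := s) (fun i => ((hY2 i).mul (hγ i)).add ((hY i).mul ((hg1 i).mul (hB2 i))))
  unfold lineD lineD2
  exact ((m1.const_mul _).add (m2.add m3)).add (m4.const_mul _)

theorem lineD2_nonneg [Nonempty Ω] (π : Fin r → Ω → Fin p)
    (hcl : ∀ c v, p * (univ.filter (fun i => π c i = v)).card = Fintype.card Ω)
    {τ T P0 η : ℝ} (hτ : 0 ≤ τ) (hT : 0 ≤ T) (hP0 : 0 ≤ P0) (hr : 0 < r)
    (hrare : Rare π τ T η P0) (h1 : (τ + T * r) * P0 ≤ 1)
    (h2 : (τ + T * r) * Real.sqrt (p * P0) ≤ η)
    {γ g1 g2 : ℝ → ℝ} (hg : GamData η γ g1 g2)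
    (x v : Ω → ℝ) (s : ℝ) (hx : ∑ i, (x i + s * v i) ^ 4 ≤ Fintype.card Ω) :
    0 ≤ lineD2 π τ T η γ g1 g2 x v s := by
  have h := second_nonneg π hcl hτ hT hP0 hr hrare h1 h2 hg (fun i => x i + s * v i) v hx
  unfold lineD2
  set X : Ω → ℝ := fun i => x i + s * v i with hX
  set G : Ω → ℝ := opB π τ T (fun j => X j ^ 2) with hG
  have hBq : ∀ i, opB π τ T (fun j => 2 * ((x j + s * v j) * v j)) i
      = 2 * opB π τ T (fun j => X j * v j) i := fun i =>
    opB_smul π τ T 2 (fun j => (x j + s * v j) * v j) i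
  have hBv : ∀ i, opB π τ T (fun j => 2 * v j ^ 2) i = 2 * opB π τ T (fun j => v j ^ 2) i :=
    fun i => opB_smul π τ T 2 (fun j => v j ^ 2) i
  have hs : mean (fun i => X i ^ 2 * opB π τ T (fun j => v j ^ 2) i)
      = mean (fun i => v i ^ 2 * G i) := by
    rw [mean_mul_opB_comm]
    congr 1
    funext i
    ring
  simp only [hBq, hBv]
  have e1 : mean (fun i => 2 * v i ^ 2) = 2 * mean (fun i => v i ^ 2) := mean_smul 2 _
  have e2 : mean (fun i => 12 * (x i + s * v i) ^ 2 * v i ^ 2)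
      = 12 * mean (fun i => (X i * v i) ^ 2) := by
    rw [← mean_smul]
    congr 1
    funext i
    simp only [hX]
    ring
  have e3 : mean (fun i => (2 * v i ^ 2 * opB π τ T (fun j => (x j + s * v j) ^ 2) i
          + 2 * ((x i + s * v i) * v i) * (2 * opB π τ T (fun j => X j * v j) i))
          + (2 * ((x i + s * v i) * v i) * (2 * opB π τ T (fun j => X j * v j) i)
          + (x i + s * v i) ^ 2 * (2 * opB π τ T (fun j => v j ^ 2) i)))
      = 4 * mean (fun i => v i ^ 2 * G i)
        + 8 * mean (fun i => (X i * v i) * opB π τ T (fun j => X j * v j) i) := by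
    have : (fun i => (2 * v i ^ 2 * opB π τ T (fun j => (x j + s * v j) ^ 2) i
          + 2 * ((x i + s * v i) * v i) * (2 * opB π τ T (fun j => X j * v j) i))
          + (2 * ((x i + s * v i) * v i) * (2 * opB π τ T (fun j => X j * v j) i)
          + (x i + s * v i) ^ 2 * (2 * opB π τ T (fun j => v j ^ 2) i)))
        = fun i => (2 * (v i ^ 2 * G i) + 8 * ((X i * v i) * opB π τ T (fun j => X j * v j) i))
          + 2 * (X i ^ 2 * opB π τ T (fun j => v j ^ 2) i) := by
      funext i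
      simp only [hG, hX]
      ring
    rw [this, mean_add, mean_add, mean_smul, mean_smul, mean_smul, hs]
    ring
  have e4 : mean (fun i => (2 * v i ^ 2 * γ (opB π τ T (fun j => (x j + s * v j) ^ 2) i)
          + 2 * ((x i + s * v i) * v i) * (g1 (opB π τ T (fun j => (x j + s * v j) ^ 2) i)
              * (2 * opB π τ T (fun j => X j * v j) i)))
        + (2 * ((x i + s * v i) * v i) * (g1 (opB π τ T (fun j => (x j + s * v j) ^ 2) i)
              * (2 * opB π τ T (fun j => X j * v j) i))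
          + (x i + s * v i) ^ 2 * (g2 (opB π τ T (fun j => (x j + s * v j) ^ 2) i)
              * (2 * opB π τ T (fun j => X j * v j) i)
              * (2 * opB π τ T (fun j => X j * v j) i)
            + g1 (opB π τ T (fun j => (x j + s * v j) ^ 2) i)
              * (2 * opB π τ T (fun j => v j ^ 2) i))))
      = 2 * mean (fun i => v i ^ 2 * γ (G i))
        + 8 * mean (fun i => (X i * v i) * (g1 (G i) * opB π τ T (fun j => X j * v j) i))
        + 4 * mean (fun i => X i ^ 2 * (g2 (G i) * opB π τ T (fun j => X j * v j) i ^ 2))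
        + 2 * mean (fun i => X i ^ 2 * (g1 (G i) * opB π τ T (fun j => v j ^ 2) i)) := by
    rw [← mean_smul, ← mean_smul, ← mean_smul, ← mean_smul, ← mean_add, ← mean_add, ← mean_add]
    congr 1
    funext i
    simp only [hG, hX]
    ring
  rw [e1, e2, e3, e4]
  linarith [h]

/-! ### The unit ball of `E x⁴` -/

theorem convex_ball : Convex ℝ {x : Ω → ℝ | ∑ i, x i ^ 4 ≤ (Fintype.card Ω : ℝ)} := by
  have h : ConvexOn ℝ Set.univ (fun x : Ω → ℝ => ∑ i, x i ^ 4) := by
    refine ⟨convex_univ, fun x _ y _ a b ha hb hab => ?_⟩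
    simp only [smul_eq_mul]
    rw [Finset.mul_sum, Finset.mul_sum, ← Finset.sum_add_distrib]
    refine Finset.sum_le_sum fun i _ => ?_
    have := (Even.convexOn_pow (𝕜 := ℝ) (n := 4) (by decide)).2 (Set.mem_univ (x i))
      (Set.mem_univ (y i)) ha hb hab
    simpa using this
  have := h.convex_le (Fintype.card Ω : ℝ)
  simpa using this

/-- (A) convexity of the corrected form on the ball `E x⁴ ≤ 1` -/
theorem formF_convexOn [Nonempty Ω] (π : Fin r → Ω → Fin p)
    (hcl : ∀ c v, p * (univ.filter (fun i => π c i = v)).card = Fintype.card Ω)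
    {τ T P0 η : ℝ} (hτ : 0 ≤ τ) (hT : 0 ≤ T) (hP0 : 0 ≤ P0) (hr : 0 < r)
    (hrare : Rare π τ T η P0) (h1 : (τ + T * r) * P0 ≤ 1)
    (h2 : (τ + T * r) * Real.sqrt (p * P0) ≤ η)
    {γ g1 g2 : ℝ → ℝ} (hg : GamData η γ g1 g2) :
    ConvexOn ℝ {x : Ω → ℝ | ∑ i, x i ^ 4 ≤ (Fintype.card Ω : ℝ)} (formF π τ T η γ) := by
  refine ⟨convex_ball, fun x hx y hy a b ha hb hab => ?_⟩
  -- the segment
  have hseg : ∀ s ∈ Set.Icc (0 : ℝ) 1, ∑ i, (x i + s * (y i - x i)) ^ 4 ≤ (Fintype.card Ω : ℝ) := by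
    intro s hs
    have := convex_ball hx hy (a := 1 - s) (b := s) (by linarith [hs.2]) hs.1 (by ring)
    simp only [Set.mem_ofPred_eq, Pi.add_apply, Pi.smul_apply, smul_eq_mul] at this
    refine le_trans (le_of_eq ?_) this
    refine Finset.sum_congr rfl fun i _ => ?_
    ring
  have hconv : ConvexOn ℝ (Set.Icc (0 : ℝ) 1)
      (fun s => formF π τ T η γ (fun i => x i + s * (y i - x i))) := by
    refine convexOn_of_hasDerivWithinAt2_nonneg (convex_Icc 0 1)
      (f' := lineD π τ T η γ g1 x (fun i => y i - x i))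
      (f'' := lineD2 π τ T η γ g1 g2 x (fun i => y i - x i)) ?_ ?_ ?_ ?_
    · exact fun s _ => (line_hasDerivAt π τ T hg x (fun i => y i - x i) s).continuousAt.continuousWithinAt
    · exact fun s _ => (line_hasDerivAt π τ T hg x (fun i => y i - x i) s).hasDerivWithinAt
    · exact fun s _ => (lineD_hasDerivAt π τ T hg x (fun i => y i - x i) s).hasDerivWithinAt
    · intro s hs
      rw [interior_Icc] at hs
      exact lineD2_nonneg π hcl hτ hT hP0 hr hrare h1 h2 hg x (fun i => y i - x i) s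
        (hseg s ⟨hs.1.le, hs.2.le⟩)
  have h := hconv.2 (Set.left_mem_Icc.2 zero_le_one) (Set.right_mem_Icc.2 zero_le_one) ha hb hab
  simp only [smul_eq_mul, mul_zero, mul_one, zero_add, zero_mul, one_mul, add_zero] at h
  have e1 : (fun i => x i + b * (y i - x i)) = a • x + b • y := by
    funext i
    simp only [Pi.add_apply, Pi.smul_apply, smul_eq_mul]
    have : a = 1 - b := by linarith
    rw [this]
    ring
  have e2 : (fun i => x i + (y i - x i)) = y := by
    funext i
    ring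
  rw [e1, e2] at h
  exact h

/-! ### Size of the forms -/

/-- (C) -/
theorem mean_pow_four_le_formP [Nonempty Ω] (π : Fin r → Ω → Fin p) {τ T : ℝ} (hτ : 0 ≤ τ)
    (hT : 0 ≤ T) (x : Ω → ℝ) : mean (fun i => x i ^ 4) ≤ formP π τ T x := by
  unfold formP
  have := opB_psd π hτ hT (fun j => x j ^ 2)
  linarith

theorem formP_nonneg [Nonempty Ω] (π : Fin r → Ω → Fin p) {τ T : ℝ} (hτ : 0 ≤ τ)
    (hT : 0 ≤ T) (x : Ω → ℝ) : 0 ≤ formP π τ T x :=
  le_trans (mean_nonneg fun i => by positivity) (mean_pow_four_le_formP π hτ hT x)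

theorem formP_smul (π : Fin r → Ω → Fin p) (τ T t : ℝ) (x : Ω → ℝ) :
    formP π τ T (fun i => t * x i) = t ^ 4 * formP π τ T x := by
  unfold formP
  rw [mul_add, ← mean_smul, ← mean_smul]
  have e : (fun j => (t * x j) ^ 2) = fun j => t ^ 2 * x j ^ 2 := by
    funext j
    ring
  rw [e]
  congr 1
  · congr 1
    funext i
    ring
  · congr 1
    funext i
    rw [opB_smul]
    ring

theorem formP_neg (π : Fin r → Ω → Fin p) (τ T : ℝ) (x : Ω → ℝ) :
    formP π τ T (fun i => -x i) = formP π τ T x := by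
  have := formP_smul π τ T (-1) x
  simp only [neg_mul, one_mul] at this
  rw [this]
  norm_num

theorem formF_neg (π : Fin r → Ω → Fin p) (τ T η : ℝ) (γ : ℝ → ℝ) (x : Ω → ℝ) :
    formF π τ T η γ (fun i => -x i) = formF π τ T η γ x := by
  unfold formF
  rw [formP_neg]
  simp only [even_two, Even.neg_pow]

theorem formP_zero (π : Fin r → Ω → Fin p) (τ T : ℝ) : formP π τ T (fun _ => 0) = 0 := by
  have := formP_smul π τ T 0 (fun _ => 0)
  simpa using this

/-- the forms only depend on the squares -/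
theorem formP_congr (π : Fin r → Ω → Fin p) (τ T : ℝ) {x x' : Ω → ℝ}
    (h : ∀ i, x i ^ 2 = x' i ^ 2) : formP π τ T x = formP π τ T x' := by
  have e4 : ∀ i, x i ^ 4 = x' i ^ 4 := fun i => by
    have := h i
    calc x i ^ 4 = (x i ^ 2) ^ 2 := by ring
      _ = (x' i ^ 2) ^ 2 := by rw [this]
      _ = x' i ^ 4 := by ring
  unfold formP
  simp only [h, e4]

/-- (B) lower bound -/
theorem formP_le_formF [Nonempty Ω] (π : Fin r → Ω → Fin p) {τ T η : ℝ} (hη : 0 ≤ η)
    {γ g1 g2 : ℝ → ℝ} (hg : GamData η γ g1 g2) (x : Ω → ℝ) :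
    formP π τ T x ≤ formF π τ T η γ x := by
  unfold formF
  have h1 : 0 ≤ mean (fun i => x i ^ 2) := mean_nonneg fun i => sq_nonneg _
  have h2 : 0 ≤ mean (fun i => x i ^ 2 * γ (opB π τ T (fun j => x j ^ 2) i)) :=
    mean_nonneg fun i => mul_nonneg (sq_nonneg _) (hg.ge _)
  have h3 : 0 ≤ 6 * η * mean (fun i => x i ^ 2) := by positivity
  linarith

theorem card_le_of_class {P0 : ℝ} (π : Fin r → Ω → Fin p) (hr : 0 < r) (Z : Finset Ω)
    (hZ : ∀ c v, ((Z.filter (fun i => π c i = v)).card : ℝ)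
      ≤ P0 * (univ.filter (fun i => π c i = v)).card) :
    (Z.card : ℝ) ≤ P0 * Fintype.card Ω := by
  have e1 : Z.card = ∑ v, (Z.filter (fun i => π ⟨0, hr⟩ i = v)).card :=
    Finset.card_eq_sum_card_fiberwise (fun _ _ => mem_univ _)
  have e2 : Fintype.card Ω = ∑ v, (univ.filter (fun i => π ⟨0, hr⟩ i = v)).card := by
    rw [← Finset.card_univ]
    exact Finset.card_eq_sum_card_fiberwise (fun _ _ => mem_univ _)
  rw [e1, e2]
  push_cast
  rw [Finset.mul_sum]
  exact Finset.sum_le_sum fun v _ => hZ ⟨0, hr⟩ v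

/-- (B) upper bound -/
theorem formF_le [Nonempty Ω] (π : Fin r → Ω → Fin p) {τ T P0 η : ℝ} (hτ : 0 ≤ τ) (hT : 0 ≤ T)
    (hη : 0 ≤ η) (hr : 0 < r) (hrare : Rare π τ T η P0)
    {γ g1 g2 : ℝ → ℝ} (hg : GamData η γ g1 g2) (x : Ω → ℝ)
    (hx : ∑ i, x i ^ 4 ≤ Fintype.card Ω) :
    formF π τ T η γ x ≤ formP π τ T x + 6 * η + 2 * (T * r) * Real.sqrt P0 := by
  classical
  have hn : (0 : ℝ) < Fintype.card Ω := by exact_mod_cast Fintype.card_pos
  set y : Ω → ℝ := fun j => x j ^ 2 with hy
  have hy2 : ∑ i, y i ^ 2 ≤ Fintype.card Ω := by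
    have : ∀ i, y i ^ 2 = x i ^ 4 := fun i => by simp only [hy]; ring
    rw [Finset.sum_congr rfl fun i _ => this i]
    exact hx
  have hy0 : ∀ i, 0 ≤ y i := fun i => by simp only [hy]; positivity
  have hmy0 : 0 ≤ mean y := mean_nonneg hy0
  have hmy1 : mean y ≤ 1 := by
    have h1 := mean_sq_le y
    have h2 : mean (fun i => y i ^ 2) ≤ 1 := by
      unfold mean
      rw [div_le_one hn]
      exact hy2
    nlinarith
  set Z : Finset Ω := univ.filter (fun i => opB π τ T y i < -η) with hZdef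
  have hZ : ∀ c v, ((Z.filter (fun i => π c i = v)).card : ℝ)
      ≤ P0 * (univ.filter (fun i => π c i = v)).card := by
    intro c w
    have := hrare y hy0 hy2 c w
    rw [hZdef, Finset.filter_filter]
    exact this
  have hZc := card_le_of_class π hr Z hZ
  -- lower bound of `B y`
  have hBlow : ∀ i, -(T * r) ≤ opB π τ T y i := by
    intro i
    unfold opB
    have h1 : ∑ _c : Fin r, (-1 : ℝ) ≤ ∑ c, (cmean (π c) y i - mean y) := by
      refine Finset.sum_le_sum fun c _ => ?_
      have : 0 ≤ cmean (π c) y i := by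
        unfold cmean
        exact div_nonneg (mul_nonneg (Nat.cast_nonneg _)
          (Finset.sum_nonneg fun j _ => hy0 j)) (Nat.cast_nonneg _)
      linarith
    rw [Finset.sum_const, Finset.card_univ, Fintype.card_fin, nsmul_eq_mul] at h1
    have h2 := mul_le_mul_of_nonneg_left h1 hT
    have h3 := mul_nonneg hτ hmy0
    linarith
  have hmain : mean (fun i => y i * γ (opB π τ T y i)) ≤ T * r * Real.sqrt P0 := by
    have hTr : 0 ≤ T * r := mul_nonneg hT (Nat.cast_nonneg _)
    have h1 : mean (fun i => y i * γ (opB π τ T y i))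
        ≤ T * r * mean (fun i => if i ∈ Z then y i else 0) := by
      rw [← mean_smul]
      refine mean_mono fun i => ?_
      split_ifs with hi
      · have hneg : opB π τ T y i < -η := by
          rw [hZdef, Finset.mem_filter] at hi
          exact hi.2
        have h2 := hg.up (opB π τ T y i)
        have h3 := hBlow i
        rw [abs_of_neg (by linarith)] at h2
        rw [mul_comm (T * r)]
        exact mul_le_mul_of_nonneg_left (by linarith) (hy0 i)
      · have : -η ≤ opB π τ T y i := by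
          by_contra h
          exact hi (by rw [hZdef, Finset.mem_filter]; exact ⟨mem_univ _, not_le.1 h⟩)
        rw [hg.z0 _ this]
        simp
    have h4 : mean (fun i => if i ∈ Z then y i else 0) ≤ Real.sqrt P0 := by
      refine Real.le_sqrt_of_sq_le ?_
      unfold mean
      rw [← Finset.sum_filter, Finset.filter_mem_eq_inter, Finset.univ_inter, div_pow,
        div_le_iff₀ (by positivity)]
      have h5 := sq_sum_le_card_mul_sum_sq (s := Z) (f := y)
      have h6 : ∑ i ∈ Z, y i ^ 2 ≤ Fintype.card Ω :=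
        (Finset.sum_le_sum_of_subset_of_nonneg (fun _ _ => mem_univ _)
          fun i _ _ => sq_nonneg _).trans hy2
      calc (∑ i ∈ Z, y i) ^ 2 ≤ Z.card * ∑ i ∈ Z, y i ^ 2 := h5
        _ ≤ Z.card * Fintype.card Ω := mul_le_mul_of_nonneg_left h6 (Nat.cast_nonneg _)
        _ ≤ P0 * Fintype.card Ω * Fintype.card Ω := mul_le_mul_of_nonneg_right hZc hn.le
        _ = _ := by ring
    exact h1.trans (mul_le_mul_of_nonneg_left h4 hTr)
  unfold formF
  have h7 : 6 * η * mean y ≤ 6 * η := by nlinarith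
  have h8 : mean (fun i => x i ^ 2 * γ (opB π τ T (fun j => x j ^ 2) i))
      ≤ T * r * Real.sqrt P0 := hmain
  have h9 : 6 * η * mean (fun i => x i ^ 2) ≤ 6 * η := h7
  linarith

/-- the convex hull of the set `P ≤ 1` -/
theorem hull_le [Nonempty Ω] (π : Fin r → Ω → Fin p)
    (hcl : ∀ c v, p * (univ.filter (fun i => π c i = v)).card = Fintype.card Ω)
    {τ T P0 η : ℝ} (hτ : 0 ≤ τ) (hT : 0 ≤ T) (hP0 : 0 ≤ P0) (hη : 0 ≤ η) (hr : 0 < r)
    (hrare : Rare π τ T η P0) (h1 : (τ + T * r) * P0 ≤ 1)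
    (h2 : (τ + T * r) * Real.sqrt (p * P0) ≤ η)
    {γ g1 g2 : ℝ → ℝ} (hg : GamData η γ g1 g2) (x : Ω → ℝ)
    (hx : x ∈ convexHull ℝ {x : Ω → ℝ | formP π τ T x ≤ 1}) :
    ∑ i, x i ^ 4 ≤ (Fintype.card Ω : ℝ)
      ∧ formP π τ T x ≤ 1 + 6 * η + 2 * (T * r) * Real.sqrt P0 := by
  have hn : (0 : ℝ) < Fintype.card Ω := by exact_mod_cast Fintype.card_pos
  have hcv := formF_convexOn π hcl hτ hT hP0 hr hrare h1 h2 hg
  have hC := hcv.convex_le (1 + 6 * η + 2 * (T * r) * Real.sqrt P0)
  have hsub : {x : Ω → ℝ | formP π τ T x ≤ 1} ⊆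
      {x ∈ {x : Ω → ℝ | ∑ i, x i ^ 4 ≤ (Fintype.card Ω : ℝ)} |
        formF π τ T η γ x ≤ 1 + 6 * η + 2 * (T * r) * Real.sqrt P0} := by
    intro z hz
    have hz' : formP π τ T z ≤ 1 := hz
    have h4 : ∑ i, z i ^ 4 ≤ (Fintype.card Ω : ℝ) := by
      have := (mean_pow_four_le_formP π hτ hT z).trans hz'
      unfold mean at this
      rwa [div_le_one hn] at this
    have h5 := formF_le π hτ hT hη hr hrare hg z h4
    exact ⟨h4, by linarith⟩
  have h3 := convexHull_min hsub hC hx
  exact ⟨h3.1, (formP_le_formF π hη hg x).trans h3.2⟩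

/-! ### The convex quartic comparison form -/

theorem mean_cmean_sq (π : Ω → Fin p)
    (hcl : ∀ v, p * (univ.filter (fun i => π i = v)).card = Fintype.card Ω) (u : Ω → ℝ) :
    mean (fun i => cmean π u i ^ 2) = mean (fun i => u i * cmean π u i) := by
  rcases isEmpty_or_nonempty Ω with h | h
  · simp [mean]
  have hn : (0 : ℝ) < Fintype.card Ω := by exact_mod_cast Fintype.card_pos
  rw [mean_mul_cmean]
  unfold mean
  rw [← Finset.sum_fiberwise univ π (fun i => cmean π u i ^ 2)]
  have e : ∀ v, ∑ i with π i = v, cmean π u i ^ 2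
      = (p : ℝ) / Fintype.card Ω * cs π u v ^ 2 := by
    intro v
    have h3 : (p : ℝ) * (univ.filter (fun i => π i = v)).card = Fintype.card Ω := by
      exact_mod_cast hcl v
    have : ∀ i ∈ univ.filter (fun i => π i = v), cmean π u i ^ 2
        = ((p : ℝ) * cs π u v / Fintype.card Ω) ^ 2 := by
      intro i hi
      rw [Finset.mem_filter] at hi
      unfold cmean cs
      rw [hi.2]
    rw [Finset.sum_congr rfl this, Finset.sum_const, nsmul_eq_mul, div_pow, mul_pow]
    have e2 : ((univ.filter (fun i => π i = v)).card : ℝ)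
        * ((p : ℝ) ^ 2 * cs π u v ^ 2 / (Fintype.card Ω : ℝ) ^ 2)
        = ((p : ℝ) * (univ.filter (fun i => π i = v)).card) * (p * cs π u v ^ 2)
          / (Fintype.card Ω : ℝ) ^ 2 := by ring
    rw [e2, h3]
    field_simp
  rw [Finset.sum_congr rfl fun v _ => e v, ← Finset.mul_sum]
  field_simp

/-- (D) the comparison form is `P + T r (E x²)²` -/
theorem formQ_eq (π : Fin r → Ω → Fin p)
    (hcl : ∀ c v, p * (univ.filter (fun i => π c i = v)).card = Fintype.card Ω)
    (τ T : ℝ) (x : Ω → ℝ) :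
    formQ π τ T x = formP π τ T x + T * r * mean (fun i => x i ^ 2) ^ 2 := by
  unfold formQ formP
  rw [opB_quad, Finset.sum_sub_distrib, Finset.sum_const, Finset.card_univ, Fintype.card_fin,
    nsmul_eq_mul, Finset.sum_congr rfl fun c _ => mean_cmean_sq (π c) (hcl c) (fun i => x i ^ 2)]
  ring

theorem formP_le_formQ (π : Fin r → Ω → Fin p)
    (hcl : ∀ c v, p * (univ.filter (fun i => π c i = v)).card = Fintype.card Ω)
    {τ T : ℝ} (hT : 0 ≤ T) (x : Ω → ℝ) : formP π τ T x ≤ formQ π τ T x := by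
  rw [formQ_eq π hcl]
  have : 0 ≤ T * r * mean (fun i => x i ^ 2) ^ 2 := by positivity
  linarith

/-- (D) `Q ≤ (1 + A) P` when `T r ≤ A τ` -/
theorem formQ_le [Nonempty Ω] (π : Fin r → Ω → Fin p)
    (hcl : ∀ c v, p * (univ.filter (fun i => π c i = v)).card = Fintype.card Ω)
    {τ T A : ℝ} (hT : 0 ≤ T) (hA : 0 ≤ A) (hTA : T * r ≤ A * τ) (x : Ω → ℝ) :
    formQ π τ T x ≤ (1 + A) * formP π τ T x := by
  rw [formQ_eq π hcl]
  have h1 : τ * mean (fun i => x i ^ 2) ^ 2 ≤ formP π τ T x := by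
    unfold formP
    rw [opB_quad]
    have h2 : 0 ≤ mean (fun i => x i ^ 4) := mean_nonneg fun i => by positivity
    have h3 : 0 ≤ ∑ c, (mean (fun i => x i ^ 2 * cmean (π c) (fun i => x i ^ 2) i)
        - mean (fun i => x i ^ 2) ^ 2) :=
      Finset.sum_nonneg fun c _ => sub_nonneg.2 (mean_sq_le_mul_cmean (π c) _)
    have h4 := mul_nonneg hT h3
    linarith
  have h5 : T * r * mean (fun i => x i ^ 2) ^ 2 ≤ A * τ * mean (fun i => x i ^ 2) ^ 2 :=
    mul_le_mul_of_nonneg_right hTA (sq_nonneg _)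
  have h6 := mul_le_mul_of_nonneg_left h1 hA
  linarith

theorem convexOn_sumsq (s : Finset Ω) :
    ConvexOn ℝ Set.univ (fun x : Ω → ℝ => ∑ i ∈ s, x i ^ 2) := by
  refine ⟨convex_univ, fun x _ y _ a b ha hb hab => ?_⟩
  simp only [smul_eq_mul]
  rw [Finset.mul_sum, Finset.mul_sum, ← Finset.sum_add_distrib]
  refine Finset.sum_le_sum fun i _ => ?_
  have := (Even.convexOn_pow (𝕜 := ℝ) (n := 2) (by decide)).2 (Set.mem_univ (x i))
    (Set.mem_univ (y i)) ha hb hab
  simpa using this

/-- (D) the comparison form is convex everywhere -/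
theorem formQ_convexOn (π : Fin r → Ω → Fin p) {τ T : ℝ} (hτ : 0 ≤ τ) (hT : 0 ≤ T) :
    ConvexOn ℝ Set.univ (formQ π τ T) := by
  have hsq : ∀ s : Finset Ω, ConvexOn ℝ Set.univ (fun x : Ω → ℝ => (∑ i ∈ s, x i ^ 2) ^ 2) :=
    fun s => (convexOn_sumsq s).pow (fun x _ => Finset.sum_nonneg fun i _ => sq_nonneg _) 2
  have h4 : ConvexOn ℝ Set.univ (fun x : Ω → ℝ => mean (fun i => x i ^ 4)) := by
    refine ⟨convex_univ, fun x _ y _ a b ha hb hab => ?_⟩
    simp only [smul_eq_mul]
    rw [← mean_smul, ← mean_smul, ← mean_add]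
    refine mean_mono fun i => ?_
    have := (Even.convexOn_pow (𝕜 := ℝ) (n := 4) (by decide)).2 (Set.mem_univ (x i))
      (Set.mem_univ (y i)) ha hb hab
    simpa using this
  have hc : ∀ c, ConvexOn ℝ Set.univ
      (fun x : Ω → ℝ => mean (fun i => cmean (π c) (fun j => x j ^ 2) i ^ 2)) := by
    intro c
    refine ⟨convex_univ, fun x _ y _ a b ha hb hab => ?_⟩
    simp only [smul_eq_mul]
    rw [← mean_smul, ← mean_smul, ← mean_add]
    refine mean_mono fun i => ?_
    have h := (hsq (univ.filter (fun j => π c j = π c i))).2 (Set.mem_univ x)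
      (Set.mem_univ y) ha hb hab
    simp only [smul_eq_mul, Pi.add_apply, Pi.smul_apply] at h
    unfold cmean
    have e : ∀ t : ℝ, ((p : ℝ) * t / Fintype.card Ω) ^ 2
        = ((p : ℝ) / Fintype.card Ω) ^ 2 * t ^ 2 := fun t => by ring
    rw [e, e, e]
    have h2 := mul_le_mul_of_nonneg_left h (sq_nonneg ((p : ℝ) / Fintype.card Ω))
    simp only [Pi.add_apply, Pi.smul_apply, smul_eq_mul]
    refine h2.trans (le_of_eq ?_)
    ring
  have hm : ConvexOn ℝ Set.univ (fun x : Ω → ℝ => mean (fun i => x i ^ 2) ^ 2) := by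
    refine ⟨convex_univ, fun x _ y _ a b ha hb hab => ?_⟩
    have h := (hsq univ).2 (Set.mem_univ x) (Set.mem_univ y) ha hb hab
    simp only [smul_eq_mul, Pi.add_apply, Pi.smul_apply] at h
    unfold mean
    simp only [smul_eq_mul, Pi.add_apply, Pi.smul_apply, div_pow]
    have h2 := div_le_div_of_nonneg_right h (sq_nonneg (Fintype.card Ω : ℝ))
    refine h2.trans (le_of_eq ?_)
    ring
  have hsum : ConvexOn ℝ Set.univ (fun x : Ω → ℝ =>
      ∑ c, mean (fun i => cmean (π c) (fun j => x j ^ 2) i ^ 2)) := by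
    refine ⟨convex_univ, fun x _ y _ a b ha hb hab => ?_⟩
    simp only [smul_eq_mul]
    rw [Finset.mul_sum, Finset.mul_sum, ← Finset.sum_add_distrib]
    refine Finset.sum_le_sum fun c _ => ?_
    have := (hc c).2 (Set.mem_univ x) (Set.mem_univ y) ha hb hab
    simpa only [smul_eq_mul] using this
  have := (h4.add (hsum.smul hT)).add (hm.smul hτ)
  exact this

theorem formQ_smul (π : Fin r → Ω → Fin p)
    (hcl : ∀ c v, p * (univ.filter (fun i => π c i = v)).card = Fintype.card Ω)
    (τ T t : ℝ) (x : Ω → ℝ) :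
    formQ π τ T (fun i => t * x i) = t ^ 4 * formQ π τ T x := by
  rw [formQ_eq π hcl, formQ_eq π hcl, formP_smul]
  have e : (fun i => (t * x i) ^ 2) = fun i => t ^ 2 * x i ^ 2 := by
    funext i
    ring
  rw [e, mean_smul]
  ring

end Pool.Agent.Helper42.PK
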